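import Mathlib
import Pool.Agent.Helper69.FdDefs
import Pool.Agent.Helper69.HdDefs
import Pool.Agent.Helper69.HdMain

set_option autoImplicit false

namespace Pool.Agent.Results.MP_8bfc08_an.AllFive

open Pool.Agent.Helper69.Fd

/-- Over the real and over the complex numbers, each of the five homological dimensions
`pd, fd, id, apd, pid` of Banach spaces takes all the values `0, 1, 2, …, ∞`. -/
theorem result (𝕜 : Type) [RCLike 𝕜] :
    {n : ℕ∞ | ∃ (X : Type) (_ : NormedAddCommGroup X) (_ : NormedSpace 𝕜 X)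
      (_ : CompleteSpace X), pd 𝕜 X = n} = Set.univ ∧
    {n : ℕ∞ | ∃ (X : Type) (_ : NormedAddCommGroup X) (_ : NormedSpace 𝕜 X)
      (_ : CompleteSpace X), fd 𝕜 X = n} = Set.univ ∧
    {n : ℕ∞ | ∃ (X : Type) (_ : NormedAddCommGroup X) (_ : NormedSpace 𝕜 X)
      (_ : CompleteSpace X), injDim 𝕜 X = n} = Set.univ ∧
    {n : ℕ∞ | ∃ (X : Type) (_ : NormedAddCommGroup X) (_ : NormedSpace 𝕜 X)
      (_ : CompleteSpace X), apd 𝕜 X = n} = Set.univ ∧
    {n : ℕ∞ | ∃ (X : Type) (_ : NormedAddCommGroup X) (_ : NormedSpace 𝕜 X)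
      (_ : CompleteSpace X), pid 𝕜 X = n} = Set.univ :=
  ⟨Set.eq_univ_iff_forall.2 pd_values, Set.eq_univ_iff_forall.2 fd_values,
    Set.eq_univ_iff_forall.2 injDim_values, Set.eq_univ_iff_forall.2 apd_values,
    Set.eq_univ_iff_forall.2 pid_values⟩

end Pool.Agent.Results.MP_8bfc08_an.AllFive
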